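import Pool.Agent.H60.NC.Fin

/-!
# MP_f83c3a_gt, Q1 and Q2 : classification of the null 2-type surfaces with flat normal bundle

Let `s = 0, 1, 2, 3`, `U` a connected open set of the plane, `X : U → E^4_s` a smooth immersion with
nondegenerate induced metric, `X = x0 + X1 + X2`, `Δ X1 = 0`, `Δ X2 = c X2`, `c ≠ 0`, and suppose that
the normal bundle is flat or that `<H,H>` is constant.  Each point `x` of `U` with `dX1(x) ≠ 0`
and `X2(x) ≠ 0` has a neighbourhood on which `X` is, up to a change of the parameters,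

(I) a cylinder `γ(u) + t v` over a curve with `γ'' = - ε c (γ - a - u w)`, `<γ',γ'> = ε = ±1`,

(II) a ruled surface `p(y) + q(y) + x b(y)` of B-scroll type: `b` is a curve in the light cone,
`b' = m q`, `<q,q> = 2/c`, `p'` is orthogonal to `b` and `q`,

(III) a graph `a + s b_0 + t b_1 + (g_0 + g_1)(s,t) v` over a nondegenerate plane in the direction of
a lightlike vector `v` orthogonal to it, `L g_0 = 0`, `L g_1 = c g_1`, `L` the Laplace operator of
the plane.

Conversely each of these surfaces is of null 2-type and has flat normal bundle.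
-/

open Pool.Agent.H99.N2 (E2 E4)
open Pool.H60.PE Pool.H60.NC

namespace Pool.Agent.Results.MP_f83c3a_gt.Classification

theorem result (s : ℕ) (hs : s ≤ 3) (c : ℝ) (hc : c ≠ 0) :
    (∀ (U : Set E2), IsOpen U → IsPreconnected U → ∀ (X : E2 → E4), IsSurface s X U →
      (FlatNormalBundle s X U ∨
        ∃ C : ℝ, ∀ x ∈ U, ip s (meanCurv s X x) (meanCurv s X x) = C) →
      ∀ (x0 : E4) (X1 X2 : E2 → E4), IsDecomposition s X U x0 X1 X2 c →
      ∀ x ∈ U, fderiv ℝ X1 x ≠ 0 → X2 x ≠ 0 →
        LocalForm X U x (IsHelixCylinder s c) ∨ LocalForm X U x (IsBScroll s c) ∨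
          LocalForm X U x (IsNullGraph s c)) ∧
    (∀ (V : Set E2), IsOpen V → V.Nonempty → ∀ (F : E2 → E4),
      (IsHelixCylinder s c F V ∨ IsBScroll s c F V ∨ IsNullGraph s c F V) →
      IsSurface s F V ∧ FlatNormalBundle s F V ∧ IsNullTwoType s F V) := by
  have _ := hs
  refine ⟨?_, ?_⟩
  · intro U hU hUc X hX h x0 X1 X2 hd x hx h1 h2
    exact direct hU hUc hX h hc hd hx h1 h2
  · intro V hV hne F h
    exact converse hc hV hne h

end Pool.Agent.Results.MP_f83c3a_gt.Classification
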