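import Pool.Agent.H60.NC.MThree

/-!
# MP_f83c3a_gt, Q1 and Q2 : three local conditions under which `<H,H>` is constant

Let `s = 0, 1, 2, 3`, let `U` be a connected open set of the plane and let `X : U → E^4_s` be a
smooth immersion with nondegenerate induced metric, of null 2-type or, more generally, with
`Δ H = c H` for a constant `c ≠ 0`.  If each neighbourhood of each point contains a nonempty open
set on which one of the following three conditions holds, then `<H,H>` is constant.

(a) The normal bundle is flat.

(b) There is a complex tangent vector `r ≠ 0` with `g(r,r) = 0` and `<h(r,r),h(r,r)> = 0` (`g` the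
metric, `h` the second fundamental form, extended complex bilinearly).  For `s = 0` this says that
the ellipse of curvature is a circle or a point.

(c) There is a tangent vector `r ≠ 0` such that the derivative of `H` in the direction `r` is a
multiple of `r`, in other words `H` is parallel in a principal direction of its shape operator.

For a null 2-type surface `X = x0 + X1 + X2` one has `H = - (c/2) X2`, so that (c) says that
`dX1(r)` and `dX2(r)` are linearly dependent for some `r ≠ 0`; this holds in particular if `X1` or
`X2` is not an immersion at any point.
-/

open Pool.Agent.H99.N2 (E2 E4)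
open Pool.H60.PE Pool.H60.NC

namespace Pool.Agent.Results.MP_f83c3a_gt.ConstantLengthH

theorem result (s : ℕ) (hs : s ≤ 3) (U : Set E2) (hU : IsOpen U)
    (hc : IsPreconnected U) (X : E2 → E4)
    (hX : IsSurface s X U) (hloc : DenselySpecial s X U)
    (h : IsNullTwoType s X U ∨
      ∃ c : ℝ, c ≠ 0 ∧ ∀ x ∈ U, lap s X (meanCurv s X) x = c • meanCurv s X x) :
    ∃ C : ℝ, ∀ x ∈ U, ip s (meanCurv s X x) (meanCurv s X x) = C := by
  have _ := hs
  rcases h with h | h
  · exact main_three s hU hc hX hloc (lapH_of_null hU hX h)
  · exact main_three s hU hc hX hloc h

end Pool.Agent.Results.MP_f83c3a_gt.ConstantLengthH
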