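import Pool.Agent.H60.LG.MLag

/-!
# MP_f83c3a_gt, Q1 and Q2 : Lagrangian null 2-type surfaces

Let `s = 0, 1, 2, 3`, let `U` be a connected open set of the plane and let `X : U → E^4_s` be a
smooth immersion with nondegenerate induced metric which is Lagrangian for a constant linear map `J`
of `E^4_s` that is skew for the inner product and satisfies `J^2 = -1` or `J^2 = 1` (such `J` exist for
`s = 0` and `s = 2`: orthogonal complex structures of `E^4` and `E^4_2`, para-complex structures of `E^4_2`).
If `X` is of null 2-type or, more generally, if `Δ H = c H` for a constant `c ≠ 0`, then `<H,H>` is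
constant, and `H` is parallel in the normal bundle if `<H,H>` is not zero.

The proof: in the null frame `v1`, `v2`, `J v1`, `J v2` over a differential field the second
fundamental form is a cubic form `κ, η1, η2, κ'`.  The weight zero invariants `a = κ η2/η1^2`,
`b = κ' η1/η2^2` and one more function satisfy a system of total differential equations; its
integrability conditions have no solution with nonconstant `<H,H>` (files `LTF` and `LTA`).
-/

open Pool.Agent.H99.N2 (E2 E4)
open Pool.H60.PE Pool.H60.LG

namespace Pool.Agent.Results.MP_f83c3a_gt.LagrangianSurfaces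

theorem result (s : ℕ) (hs : s ≤ 3) (U : Set E2) (hU : IsOpen U)
    (hc : IsPreconnected U) (X : E2 → E4)
    (hX : IsSurface s X U) (hL : IsLagrangian s X U)
    (h : IsNullTwoType s X U ∨
      ∃ c : ℝ, c ≠ 0 ∧ ∀ x ∈ U, lap s X (meanCurv s X) x = c • meanCurv s X x) :
    ∃ C : ℝ, (∀ x ∈ U, ip s (meanCurv s X x) (meanCurv s X x) = C) ∧
      (C ≠ 0 → ∀ i : Fin 2, ∀ x ∈ U, nablaPerp s X i (meanCurv s X) x = 0) := by
  have _ := hs
  rcases h with h | h
  · exact main_lag s hU hc hX hL (lapH_of_null hU hX h)
  · exact main_lag s hU hc hX hL h

end Pool.Agent.Results.MP_f83c3a_gt.LagrangianSurfaces
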